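import Pool.Agent.H88.AS.Inst

/-!
helper92 (project MP_28250c_AS, row AS_Sound): all rules of `SysQ q` are sound.
-/

set_option autoImplicit false

namespace ACpSep

open ACpFrege ACpB

private theorem ev_mdS {q : ℕ} (v : ℕ → Bool) (w : ℕ → List Bool) (r : ZMod q) (l : List (Sch q)) :
    (mdS r l).ev v w = [decide ((((l.flatMap (Sch.ev v w)).count true : ℕ) : ZMod q) = r)] := by
  have h : (List.ofFn fun i => Sch.ev v w (l.get i)) = l.map (Sch.ev v w) := ofFn_get_map l (Sch.ev v w)
  unfold mdS
  rw [Sch.ev, h, List.flatMap_def]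

private theorem md_true {q : ℕ} (v : ℕ → Bool) (w : ℕ → List Bool) (r : ZMod q) (l : List (Sch q)) :
    (∀ b ∈ (mdS r l).ev v w, b = true) ↔ (((l.flatMap (Sch.ev v w)).count true : ℕ) : ZMod q) = r := by
  rw [ev_mdS]
  simp

private theorem cl_true {q : ℕ} (v : ℕ → Bool) (w : ℕ → List Bool) (C : List Lit)
    (h : ∀ b ∈ (clS (q := q) C).ev v w, b = true) : ∃ l ∈ C, v l.1 = l.2 := by
  unfold clS at h
  rw [Sch.ev] at h
  have h1 := h _ (List.mem_singleton_self _)
  rw [List.any_eq_true] at h1
  obtain ⟨b, hb, hb'⟩ := h1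
  rw [List.mem_flatten] at hb
  obtain ⟨m, hm, hb⟩ := hb
  rw [List.mem_ofFn] at hm
  obtain ⟨i, rfl⟩ := hm
  refine ⟨C.get i, List.get_mem _ _, ?_⟩
  by_cases h2 : (C.get i).2 = true
  · rw [if_pos h2, Sch.ev, List.mem_singleton] at hb
    rw [h2, ← hb]
    exact hb'
  · rw [if_neg h2, Sch.ev, Sch.ev, List.map_cons, List.map_nil, List.mem_singleton] at hb
    have h3 : (C.get i).2 = false := by simpa using h2
    rw [h3]
    rw [hb] at hb'
    simpa using hb'

private theorem one_val {q Q k : ℕ} [NeZero Q] (v : ℕ → Bool) (w : ℕ → List Bool)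
    (h : ∀ P ∈ (one Q k).map (clS (q := q)), ∀ b ∈ P.ev v w, b = true) :
    ∃ a : ZMod Q, ∀ j : ZMod Q, v (bl Q k j) = decide (j = a) := by
  have h1 : ∀ C ∈ one Q k, ∃ l ∈ C, v l.1 = l.2 := fun C hC => cl_true v w C (h _ (List.mem_map_of_mem hC))
  have h2 := h1 ((vals Q).map fun j => (bl Q k j, true)) (by unfold one; exact List.mem_cons_self)
  obtain ⟨l, hl, hl'⟩ := h2
  rw [List.mem_map] at hl
  obtain ⟨a, _, rfl⟩ := hl
  refine ⟨a, fun j => ?_⟩
  by_cases hj : j = a
  · subst hj
    simpa using hl'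
  · have h3 : a.val ≠ j.val := fun h' => hj (ZMod.val_injective Q h').symm
    have h4 := h1 [(bl Q k j, false), (bl Q k a, false)] (by
      unfold one
      refine List.mem_cons_of_mem _ ?_
      rw [List.mem_flatMap]
      refine ⟨j, mem_vals j, ?_⟩
      rw [List.mem_map]
      refine ⟨a, ?_, rfl⟩
      rw [List.mem_filter]
      exact ⟨mem_vals a, by simpa using h3⟩)
    obtain ⟨l, hl, hl2⟩ := h4
    rcases List.mem_cons.1 hl with rfl | hl
    · simpa [hj] using hl2
    · rw [List.mem_singleton] at hl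
      subst hl
      simp only at hl2 hl'
      rw [hl'] at hl2
      exact absurd hl2 (by simp)

private theorem cst_val {q Q k : ℕ} {c a : ZMod Q} (v : ℕ → Bool) (w : ℕ → List Bool)
    (h : ∀ P ∈ (cst Q k c).map (clS (q := q)), ∀ b ∈ P.ev v w, b = true)
    (ha : ∀ j : ZMod Q, v (bl Q k j) = decide (j = a)) : a = c := by
  have h1 : ∀ C ∈ cst Q k c, ∃ l ∈ C, v l.1 = l.2 := fun C hC => cl_true v w C (h _ (List.mem_map_of_mem hC))
  obtain ⟨l, hl, hl2⟩ := h1 [(bl Q k c, true)] (by unfold cst; exact List.mem_cons_self)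
  rw [List.mem_singleton] at hl
  subst hl
  simp only [ha, decide_eq_true_eq] at hl2
  exact hl2.symm

private theorem add_val {q Q : ℕ} [NeZero Q] {a b c : ZMod Q} (v : ℕ → Bool) (w : ℕ → List Bool)
    (h : ∀ P ∈ (add Q).map (clS (q := q)), ∀ b ∈ P.ev v w, b = true)
    (ha : ∀ j : ZMod Q, v (bl Q 0 j) = decide (j = a)) (hb : ∀ j : ZMod Q, v (bl Q 1 j) = decide (j = b))
    (hc : ∀ j : ZMod Q, v (bl Q 2 j) = decide (j = c)) : c = a + b := by
  have h1 : ∀ C ∈ add Q, ∃ l ∈ C, v l.1 = l.2 := fun C hC => cl_true v w C (h _ (List.mem_map_of_mem hC))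
  by_contra hne
  have h3 : c.val ≠ (a + b).val := fun h' => hne (ZMod.val_injective Q h')
  obtain ⟨l, hl, hl2⟩ := h1 [(bl Q 0 a, false), (bl Q 1 b, false), (bl Q 2 c, false)] (by
    unfold add
    rw [List.mem_flatMap]
    refine ⟨a, mem_vals a, ?_⟩
    rw [List.mem_flatMap]
    refine ⟨b, mem_vals b, ?_⟩
    rw [List.mem_map]
    refine ⟨c, ?_, rfl⟩
    rw [List.mem_filter]
    exact ⟨mem_vals c, by simpa using h3⟩)
  rcases List.mem_cons.1 hl with rfl | hl
  · simp [ha] at hl2
  · rcases List.mem_cons.1 hl with rfl | hl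
    · simp [hb] at hl2
    · rw [List.mem_singleton] at hl
      subst hl
      simp [hc] at hl2

private theorem sum_one {Q : ℕ} (f : ZMod Q → ℕ) (a : ZMod Q) (l : List (ZMod Q)) (hl : l.Nodup) :
    (l.map fun j => (List.replicate (f j) (decide (j = a))).count true).sum = if a ∈ l then f a else 0 := by
  induction l with
  | nil => simp
  | cons b l ih =>
    rw [List.nodup_cons] at hl
    rw [List.map_cons, List.sum_cons, ih hl.2]
    by_cases hb : b = a
    · subst hb
      rw [if_neg hl.1, if_pos List.mem_cons_self]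
      simp
    · have h1 : (List.replicate (f b) (decide (b = a))).count true = 0 := by
        rw [List.count_replicate]
        simp [hb]
      rw [h1, Nat.zero_add]
      have h2 : a ∈ b :: l ↔ a ∈ l := by
        rw [List.mem_cons]
        constructor
        · rintro (h | h)
          · exact absurd h.symm hb
          · exact h
        · exact Or.inr
      simp only [h2]

private theorem Dm_count {q Q : ℕ} [NeZero Q] (c k : ℕ) {a : ZMod Q} (v : ℕ → Bool) (w : ℕ → List Bool)
    (ha : ∀ j : ZMod Q, v (bl Q k j) = decide (j = a)) :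
    ((Dm (q := q) c Q k).flatMap (Sch.ev v w)).count true = c * (a.val % q) := by
  unfold Dm
  rw [List.flatMap_assoc]
  have h1 : ∀ j : ZMod Q, (List.replicate (c * (j.val % q)) (Sch.mv (bl Q k j) : Sch q)).flatMap (Sch.ev v w) =
      List.replicate (c * (j.val % q)) (decide (j = a)) := by
    intro j
    generalize c * (j.val % q) = m
    induction m with
    | zero => rfl
    | succ m ih =>
      rw [List.replicate_succ, List.flatMap_cons, ih, List.replicate_succ, Sch.ev, ha]
      rfl
  rw [List.flatMap_congr fun j _ => h1 j, List.count_flatMap]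
  have h2 := sum_one (fun j : ZMod Q => c * (j.val % q)) a (vals Q) nodup_vals
  rw [if_pos (mem_vals a)] at h2
  exact h2

private theorem dvd_QQ (q : ℕ) : q ∣ QQ q := by
  unfold QQ
  split_ifs with h
  · subst h
    exact ⟨2, rfl⟩
  · exact dvd_rfl

private theorem QQ_pos {q : ℕ} (hq : q.Prime) : QQ q ≠ 0 := by
  unfold QQ
  split_ifs
  · norm_num
  · exact hq.ne_zero

private theorem cast_add {q Q : ℕ} (h : q ∣ Q) [NeZero Q] (a b : ZMod Q) :
    (((a + b).val : ℕ) : ZMod q) = (a.val : ZMod q) + (b.val : ZMod q) := by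
  have h1 := map_add (ZMod.castHom h (ZMod q)) a b
  simpa [ZMod.castHom_apply, ZMod.natCast_val] using h1

private theorem cast_nat {q Q : ℕ} (h : q ∣ Q) [NeZero Q] (c : ℕ) :
    ((((c : ZMod Q)).val : ℕ) : ZMod q) = (c : ZMod q) := by
  rw [ZMod.natCast_val, ZMod.cast_natCast h]

private theorem Dm_cast {q Q : ℕ} [NeZero Q] (c k : ℕ) {a : ZMod Q} (v : ℕ → Bool) (w : ℕ → List Bool)
    (ha : ∀ j : ZMod Q, v (bl Q k j) = decide (j = a)) :
    (((((Dm (q := q) c Q k).flatMap (Sch.ev v w)).count true : ℕ)) : ZMod q) = (c : ZMod q) * (a.val : ZMod q) := by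
  rw [Dm_count c k v w ha, Nat.cast_mul, ZMod.natCast_mod]

private theorem cast_pred {q : ℕ} (hq : q.Prime) : ((q - 1 : ℕ) : ZMod q) = -1 := by
  rw [Nat.cast_sub hq.one_lt.le, ZMod.natCast_self, Nat.cast_one, zero_sub]

private theorem sq_ev {q : ℕ} (v : ℕ → Bool) (w : ℕ → List Bool) (j : ℕ) : (Sch.sq j : Sch q).ev v w = w j := by
  rw [Sch.ev]

/-- Row AS_Sound. -/
theorem sound : StSound := by
  intro q hq R hR v w hp
  have : NeZero (QQ q) := ⟨QQ_pos hq⟩
  have : Fact q.Prime := ⟨hq⟩
  have hd := dvd_QQ q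
  have hm := cast_pred hq
  unfold SysQ at hR
  simp only [List.mem_cons, List.not_mem_nil, or_false] at hR
  have key : ∀ (k : ℕ), (∀ C ∈ one (QQ q) k, clS C ∈ R.prem) →
      ∃ a : ZMod (QQ q), ∀ j : ZMod (QQ q), v (bl (QQ q) k j) = decide (j = a) := by
    intro k hk
    refine one_val (q := q) v w fun P hP => ?_
    obtain ⟨C, hC, rfl⟩ := List.mem_map.1 hP
    exact hp _ (hk C hC)
  have keyc : ∀ (k : ℕ) (c a : ZMod (QQ q)), (∀ C ∈ cst (QQ q) k c, clS C ∈ R.prem) →
      (∀ j : ZMod (QQ q), v (bl (QQ q) k j) = decide (j = a)) → a = c := by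
    intro k c a hk ha
    refine cst_val (q := q) v w (fun P hP => ?_) ha
    obtain ⟨C, hC, rfl⟩ := List.mem_map.1 hP
    exact hp _ (hk C hC)
  have keya : ∀ (a b c : ZMod (QQ q)), (∀ C ∈ add (QQ q), clS C ∈ R.prem) →
      (∀ j : ZMod (QQ q), v (bl (QQ q) 0 j) = decide (j = a)) → (∀ j : ZMod (QQ q), v (bl (QQ q) 1 j) = decide (j = b)) →
      (∀ j : ZMod (QQ q), v (bl (QQ q) 2 j) = decide (j = c)) → c = a + b := by
    intro a b c hk ha hb hc
    refine add_val (q := q) v w (fun P hP => ?_) ha hb hc
    obtain ⟨C, hC, rfl⟩ := List.mem_map.1 hP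
    exact hp _ (hk C hC)
  rcases hR with rfl | rfl | rfl | rfl | rfl | rfl | rfl | rfl
  · -- start
    obtain ⟨a, ha⟩ := key 0 (fun C hC => List.mem_map_of_mem (List.mem_append_left _ hC))
    have hc := keyc 0 0 a (fun C hC => List.mem_map_of_mem (List.mem_append_right _ hC)) ha
    refine (md_true v w _ _).2 ?_
    rw [Dm_cast _ _ v w ha, hc]
    simp
  · -- step
    have h0 := (md_true v w _ _).1 (hp _ List.mem_cons_self)
    obtain ⟨a, ha⟩ := key 0 (fun C hC => List.mem_cons_of_mem _ (List.mem_map_of_mem (by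
      simp only [List.mem_append]
      exact Or.inl (Or.inl (Or.inl hC)))))
    obtain ⟨b, hb⟩ := key 1 (fun C hC => List.mem_cons_of_mem _ (List.mem_map_of_mem (by
      simp only [List.mem_append]
      exact Or.inl (Or.inl (Or.inr hC)))))
    obtain ⟨c, hc⟩ := key 2 (fun C hC => List.mem_cons_of_mem _ (List.mem_map_of_mem (by
      simp only [List.mem_append]
      exact Or.inl (Or.inr hC))))
    have habc := keya a b c (fun C hC => List.mem_cons_of_mem _ (List.mem_map_of_mem (by
      simp only [List.mem_append]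
      exact Or.inr hC))) ha hb hc
    refine (md_true v w _ _).2 ?_
    rw [List.flatMap_cons, List.count_append, Nat.cast_add, Dm_cast _ _ v w ha, hm] at h0
    rw [List.flatMap_cons, List.flatMap_append, List.count_append, List.count_append, Nat.cast_add, Nat.cast_add,
      Dm_cast _ _ v w hb, Dm_cast _ _ v w hc, hm, habc, cast_add hd, Nat.cast_one]
    linear_combination h0
  · -- end 0
    have h0 := (md_true v w _ _).1 (hp _ List.mem_cons_self)
    obtain ⟨a, ha⟩ := key 0 (fun C hC => List.mem_cons_of_mem _ (List.mem_map_of_mem (List.mem_append_left _ hC)))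
    have hc := keyc 0 _ a (fun C hC => List.mem_cons_of_mem _ (List.mem_map_of_mem (List.mem_append_right _ hC))) ha
    refine (md_true v w _ _).2 ?_
    rw [List.flatMap_cons, List.count_append, Nat.cast_add, Dm_cast _ _ v w ha, hm, hc, cast_nat hd] at h0
    rw [List.flatMap_cons, List.flatMap_nil, List.append_nil]
    linear_combination h0
  · -- end 1
    have h0 := (md_true v w _ _).1 (hp _ List.mem_cons_self)
    obtain ⟨a, ha⟩ := key 0 (fun C hC => List.mem_cons_of_mem _ (List.mem_map_of_mem (List.mem_append_left _ hC)))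
    have hc := keyc 0 _ a (fun C hC => List.mem_cons_of_mem _ (List.mem_map_of_mem (List.mem_append_right _ hC))) ha
    refine (md_true v w _ _).2 ?_
    rw [List.flatMap_cons, List.count_append, Nat.cast_add, Dm_cast _ _ v w ha, hm, hc, cast_nat hd] at h0
    rw [List.flatMap_cons, List.flatMap_nil, List.append_nil]
    linear_combination h0
  · -- sum
    have h0 := (md_true v w _ _).1 (hp _ List.mem_cons_self)
    have h1 := (md_true v w _ _).1 (hp _ (List.mem_cons_of_mem _ List.mem_cons_self))
    refine (md_true v w _ _).2 ?_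
    rw [List.flatMap_cons, List.flatMap_nil, List.append_nil] at h0 h1
    rw [List.flatMap_cons, List.flatMap_cons, List.flatMap_nil, List.append_nil, List.count_append, Nat.cast_add, h0, h1]
  · -- pair
    have h0 := (md_true v w _ _).1 (hp _ List.mem_cons_self)
    obtain ⟨a, ha⟩ := key 0 (fun C hC => List.mem_cons_of_mem _ (List.mem_map_of_mem (by
      simp only [List.mem_append]
      exact Or.inl (Or.inl (Or.inl (Or.inl hC))))))
    obtain ⟨b, hb⟩ := key 1 (fun C hC => List.mem_cons_of_mem _ (List.mem_map_of_mem (by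
      simp only [List.mem_append]
      exact Or.inl (Or.inl (Or.inl (Or.inr hC))))))
    obtain ⟨c, hc⟩ := key 2 (fun C hC => List.mem_cons_of_mem _ (List.mem_map_of_mem (by
      simp only [List.mem_append]
      exact Or.inl (Or.inl (Or.inr hC)))))
    have habc := keya a b c (fun C hC => List.mem_cons_of_mem _ (List.mem_map_of_mem (by
      simp only [List.mem_append]
      exact Or.inl (Or.inr hC)))) ha hb hc
    have hc0 := keyc 2 0 c (fun C hC => List.mem_cons_of_mem _ (List.mem_map_of_mem (by
      simp only [List.mem_append]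
      exact Or.inr hC))) hc
    refine (md_true v w _ _).2 ?_
    have hab : (a.val : ZMod q) + (b.val : ZMod q) = 0 := by
      rw [← cast_add hd, ← habc, hc0]
      simp
    rw [List.flatMap_append, List.flatMap_cons, List.flatMap_append, List.count_append, List.count_append, List.count_append,
      Nat.cast_add, Nat.cast_add, Nat.cast_add, Dm_cast _ _ v w ha, Dm_cast _ _ v w hb, Nat.cast_one, List.flatMap_cons,
      List.flatMap_nil, List.append_nil] at h0
    rw [List.flatMap_cons, List.flatMap_cons, List.flatMap_nil, List.append_nil, List.count_append, Nat.cast_add]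
    linear_combination h0 - hab
  · -- diag
    have h0 := (md_true v w _ _).1 (hp _ List.mem_cons_self)
    obtain ⟨a, ha⟩ := key 0 (fun C hC => List.mem_cons_of_mem _ (List.mem_map_of_mem (List.mem_append_left _ hC)))
    have hc := keyc 0 0 a (fun C hC => List.mem_cons_of_mem _ (List.mem_map_of_mem (List.mem_append_right _ hC))) ha
    refine (md_true v w _ _).2 ?_
    rw [List.flatMap_append, List.count_append, Nat.cast_add, Dm_cast _ _ v w ha, hc, List.flatMap_cons, List.flatMap_nil,
      List.append_nil] at h0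
    rw [List.flatMap_cons, List.flatMap_nil, List.append_nil]
    simpa using h0
  · -- bot
    have h0 := (md_true v w _ _).1 (hp _ List.mem_cons_self)
    rw [List.flatMap_nil, List.count_nil, Nat.cast_zero] at h0
    exact absurd h0 zero_ne_one

end ACpSep
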